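import Pool.Agent.Lib.helper20.QCNF

set_option autoImplicit false
open Finset Complex Real Filter Topology
open scoped NumberTheorySymbols

namespace Pool.Agent.H.MP_54f1ce_nt
open Pool.Agent.Lib.helper20.Quad

lemma crt_sum {q e : ℕ} (hq : 0 < q) (he : 0 < e) (h : Nat.Coprime q e) (f : ℕ → ℂ)
    (hf : ∀ a, f (a % (q * e)) = f a) :
    ∑ a ∈ range (q * e), f a = ∑ x ∈ range q, ∑ y ∈ range e, f (x * e + y * q) := by
  rw [← sum_product']
  have hinj : Set.InjOn (fun z : ℕ × ℕ => (z.1 * e + z.2 * q) % (q * e))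
      ↑(range q ×ˢ range e) := by
    rintro ⟨x, y⟩ hx ⟨x', y'⟩ hx' hh
    simp only [coe_product, coe_range, Set.mem_prod, Set.mem_Iio] at hx hx'
    have h1 : x * e + y * q ≡ x' * e + y' * q [MOD q * e] := hh
    have h2 : x * e ≡ x' * e [MOD q] := by
      have := h1.of_mul_right e
      simpa [Nat.ModEq] using this
    have h3 : y * q ≡ y' * q [MOD e] := by
      have := h1.of_mul_left q
      simpa [Nat.ModEq] using this
    have h4 := Nat.ModEq.cancel_right_of_coprime h h2
    have h5 := Nat.ModEq.cancel_right_of_coprime h.symm h3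
    exact Prod.ext (h4.eq_of_lt_of_lt hx.1 hx'.1) (h5.eq_of_lt_of_lt hx.2 hx'.2)
  have himg : image (fun z : ℕ × ℕ => (z.1 * e + z.2 * q) % (q * e)) (range q ×ˢ range e) =
      range (q * e) := by
    refine eq_of_subset_of_card_le (fun a ha => ?_) ?_
    · obtain ⟨z, -, rfl⟩ := mem_image.1 ha
      exact mem_range.2 (Nat.mod_lt _ (Nat.mul_pos hq he))
    · rw [card_image_of_injOn hinj]; simp
  rw [← himg, sum_image hinj]
  exact sum_congr rfl fun z _ => hf _

noncomputable def eps (d : ℕ) : ℂ := if d % 4 = 1 then 1 else I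

lemma eps_mul {q e : ℕ} (hq : Odd q) (he : Odd e) (h : Nat.Coprime q e) :
    (J(e | q) : ℂ) * J(q | e) * (eps q * eps e) = eps (q * e) := by
  have h1 : (J(e | q) : ℂ) ^ 2 = 1 := by
    have := jacobiSym.sq_one (a := e) (b := q) (by simpa using h.symm)
    exact_mod_cast this
  unfold eps
  rcases Nat.odd_mod_four_iff.1 (Nat.odd_iff.1 hq) with h2 | h2 <;>
  rcases Nat.odd_mod_four_iff.1 (Nat.odd_iff.1 he) with h3 | h3
  · rw [jacobiSym.quadratic_reciprocity_one_mod_four h2 he, if_pos h2, if_pos h3,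
      if_pos (by rw [Nat.mul_mod, h2, h3])]
    linear_combination h1
  · rw [jacobiSym.quadratic_reciprocity_one_mod_four h2 he, if_pos h2, if_neg (by omega),
      if_neg (by rw [Nat.mul_mod, h2, h3]; norm_num)]
    linear_combination I * h1
  · rw [jacobiSym.quadratic_reciprocity_one_mod_four' hq h3, if_neg (by omega), if_pos h3,
      if_neg (by rw [Nat.mul_mod, h2, h3]; norm_num)]
    linear_combination I * h1
  · rw [jacobiSym.quadratic_reciprocity_three_mod_four h2 h3, if_neg (by omega), if_neg (by omega),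
      if_pos (by rw [Nat.mul_mod, h2, h3])]
    push_cast
    linear_combination h1 - (J(e | q) : ℂ) ^ 2 * I_mul_I

theorem gsumJ (d : ℕ) : Odd d → Squarefree d → ∀ k : ℤ,
    ∑ a ∈ range d, J(a | d) * cexp (2 * π * I * (a * k / d)) = J(k | d) * (eps d * √d) := by
  induction d using Nat.strong_induction_on with
  | _ d ih =>
  intro hd hs k
  by_cases h1 : d = 1
  · subst h1; simp [eps]
  obtain ⟨q, hq, e, rfl⟩ := Nat.exists_prime_and_dvd h1
  have := Fact.mk hq
  have hqo : Odd q := (Nat.odd_mul.1 hd).1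
  have heo : Odd e := (Nat.odd_mul.1 hd).2
  have hc : Nat.Coprime q e := (Nat.squarefree_mul_iff.1 hs).1
  have he : 0 < e := heo.pos
  have hq0 : (q : ℂ) ≠ 0 := by exact_mod_cast hq.ne_zero
  have he0 : (e : ℂ) ≠ 0 := by exact_mod_cast he.ne'
  have h2 := ih e (by nlinarith [hq.two_le]) heo (Nat.squarefree_mul_iff.1 hs).2.2 k
  have h3 := gsum (p := q) (by rintro rfl; exact absurd hqo (by decide)) k
  simp only [jacobiSym.legendreSym.to_jacobiSym] at h3
  rw [crt_sum hq.pos he hc]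
  · have h4 : ∀ x y : ℕ, J(((x * e + y * q : ℕ) : ℤ) | q * e) *
        cexp (2 * π * I * (((x * e + y * q : ℕ) : ℂ) * k / ((q * e : ℕ) : ℂ))) =
        (J(e | q) : ℂ) * J(q | e) * ((J(x | q) * cexp (2 * π * I * (x * k / q))) *
          (J(y | e) * cexp (2 * π * I * (y * k / e)))) := by
      intro x y
      have e1 : J(((x * e + y * q : ℕ) : ℤ) | q) = J(x | q) * J(e | q) := by
        rw [← jacobiSym.mul_left]
        apply jacobiSym.mod_left'
        push_cast
        simp
      have e2 : J(((x * e + y * q : ℕ) : ℤ) | e) = J(y | e) * J(q | e) := by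
        rw [← jacobiSym.mul_left]
        apply jacobiSym.mod_left'
        push_cast
        simp
      have e3 : 2 * π * I * (((x * e + y * q : ℕ) : ℂ) * k / ((q * e : ℕ) : ℂ)) =
          2 * π * I * (x * k / q) + 2 * π * I * (y * k / e) := by
        push_cast
        field_simp
      rw [jacobiSym.mul_right' _ hq.ne_zero he.ne', e1, e2, e3, Complex.exp_add]
      push_cast
      ring
    simp only [h4, ← mul_sum, ← sum_mul]
    rw [h2, h3, jacobiSym.mul_right' _ hq.ne_zero he.ne', ← eps_mul hqo heo hc]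
    push_cast
    rw [Real.sqrt_mul (by positivity)]
    unfold eps
    push_cast
    ring
  · intro a
    have e1 : J(((a % (q * e) : ℕ) : ℤ) | q * e) = J(a | q * e) := by
      apply jacobiSym.mod_left'
      push_cast
      simp
    rw [e1]
    congr 1
    rw [Complex.exp_eq_exp_iff_exists_int]
    refine ⟨-((a / (q * e) : ℕ) : ℤ) * k, ?_⟩
    have e2 : (a : ℂ) = ((a % (q * e) : ℕ) : ℂ) + (q * e) * ((a / (q * e) : ℕ) : ℂ) := by
      exact_mod_cast (Nat.mod_add_div a (q * e)).symm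
    rw [e2]
    simp only [Int.cast_mul, Int.cast_neg, Int.cast_natCast, Nat.cast_mul]
    field_simp
    ring

lemma L_nonneg (d : ℕ) {s : ℝ} (hs : 1 < s) :
    ∃ r : ℝ, 0 ≤ r ∧ LSeries (fun n : ℕ => (J(n | d) : ℂ)) s = r := by
  let f : ℕ →*₀ ℝ :=
    { toFun := fun n => J(n | d) * (n : ℝ) ^ (-s)
      map_zero' := by simp [Real.zero_rpow (show -s ≠ 0 by linarith)]
      map_one' := by simp
      map_mul' := fun m n => by
        push_cast
        rw [jacobiSym.mul_left, Real.mul_rpow (by positivity) (by positivity)]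
        push_cast
        ring }
  have hJ : ∀ n : ℤ, |(J(n | d) : ℝ)| ≤ 1 := fun n => by
    rcases jacobiSym.trichotomy n d with h | h | h <;> simp [h]
  have hb : ∀ n : ℕ, ‖f n‖ ≤ (n : ℝ) ^ (-s) := fun n => by
    show ‖(J(n | d) : ℝ) * (n : ℝ) ^ (-s)‖ ≤ _
    rw [Real.norm_eq_abs, abs_mul, abs_of_nonneg (by positivity : (0 : ℝ) ≤ (n : ℝ) ^ (-s))]
    exact mul_le_of_le_one_left (by positivity) (hJ n)
  have hsum : Summable (‖f ·‖) :=
    Summable.of_nonneg_of_le (fun _ => norm_nonneg _) hb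
      (Real.summable_nat_rpow.2 (by linarith))
  refine ⟨∑' n, f n, ge_of_tendsto' (EulerProduct.eulerProduct_completely_multiplicative hsum)
    fun n => prod_nonneg fun p hp => inv_nonneg.2 ?_, ?_⟩
  · have h1 := (le_abs_self _).trans (hb p)
    have h2 : (p : ℝ) ^ (-s) ≤ 1 := Real.rpow_le_one_of_one_le_of_nonpos
      (by exact_mod_cast (Nat.prime_of_mem_primesBelow hp).pos) (by linarith)
    linarith
  · rw [Complex.ofReal_tsum]
    refine tsum_congr fun n => ?_
    by_cases hn : n = 0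
    · subst hn; simp
    · rw [LSeries.term_of_ne_zero hn]
      show _ = (((J(n | d) : ℝ) * (n : ℝ) ^ (-s) : ℝ) : ℂ)
      rw [Complex.ofReal_mul, Complex.ofReal_cpow (by positivity), Complex.ofReal_neg,
        Complex.cpow_neg]
      simp [div_eq_mul_inv]

theorem sum_nonpos {d : ℕ} (h4 : d % 4 = 3) (hs : Squarefree d) :
    ∑ a ∈ range d, a * J(a | d) ≤ 0 := by
  have hd : Odd d := Nat.odd_iff.2 (by omega)
  have hd0 : (0 : ℝ) < d := Nat.cast_pos.2 (by omega)
  have g : ∀ n : ℕ, (I * √d) * J(n | d) =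
      ∑ a ∈ Ico 1 d, J(a | d) * cexp (2 * π * I * (a / d : ℝ)) ^ n := by
    intro n
    have := gsumJ d hd hs n
    rw [eps, if_neg (by omega), range_eq_Ico, sum_eq_sum_Ico_succ_bot (by omega : 0 < d)] at this
    simp only [Nat.cast_zero, jacobiSym.zero_left (by omega : 1 < d), Int.cast_zero, zero_mul,
      zero_add] at this
    rw [mul_comm, ← this]
    refine sum_congr rfl fun a _ => ?_
    rw [← Complex.exp_nat_mul]
    congr 2
    push_cast; ring
  have fr : ∀ a ∈ Ico 1 d, (0 : ℝ) < a / d ∧ (a / d : ℝ) < 1 := fun a ha => by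
    obtain ⟨h1, h2⟩ := mem_Ico.1 ha
    exact ⟨div_pos (Nat.cast_pos.2 h1) hd0, (div_lt_one hd0).2 (Nat.cast_lt.2 h2)⟩
  have g0 : ∑ a ∈ Ico 1 d, (J(a | d) : ℝ) = 0 := by
    have := g 0
    simp only [Nat.cast_zero, jacobiSym.zero_left (by omega : 1 < d), Int.cast_zero, mul_zero,
      pow_zero, mul_one] at this
    exact_mod_cast this.symm
  have h3 := tendsto_finsetSum (Ico 1 d) fun a ha =>
    (li (unit_ne (fr a ha).1 (fr a ha).2).1 (unit_ne (fr a ha).1 (fr a ha).2).2).const_mul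
      (J(a | d) : ℂ)
  have h5 := (Complex.continuous_im.tendsto _).comp h3
  have h6 : 0 ≤ (∑ a ∈ Ico 1 d, (J(a | d) : ℂ) *
      -Complex.log (1 - cexp (2 * π * I * (a / d : ℝ)))).im := by
    refine ge_of_tendsto h5 ?_
    filter_upwards [self_mem_nhdsWithin] with s hs
    obtain ⟨r, hr, e⟩ := L_nonneg d (show 1 < s from hs)
    have h7 : ∀ a ∈ Ico 1 d, LSeriesSummable ((J(a | d) : ℂ) •
        fun n => cexp (2 * π * I * (a / d : ℝ)) ^ n) s := fun a ha =>
      (LSeriesSummable_of_bounded_of_one_lt_real (m := 1) (fun n _ => by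
        rw [norm_pow, (unit_ne (fr a ha).1 (fr a ha).2).1, one_pow]) hs).smul _
    have h8 : ∀ {n}, n ≠ 0 → ((I * √d) • fun n : ℕ => (J(n | d) : ℂ)) n =
        (∑ a ∈ Ico 1 d, (J(a | d) : ℂ) • fun n => cexp (2 * π * I * (a / d : ℝ)) ^ n) n :=
      fun {n} _ => by simpa using g n
    simp only [Function.comp_apply, ← LSeries_smul]
    rw [← LSeries_sum h7, ← LSeries_congr h8, LSeries_smul, e]
    simp
    positivity
  rw [sum_congr rfl fun a ha => by rw [log_one_sub (fr a ha).1 (fr a ha).2]] at h6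
  simp only [im_sum, mul_im, intCast_re, intCast_im, neg_im, neg_re, zero_mul, add_zero, add_im,
    ofReal_im, zero_add, I_re, I_im, ofReal_re, mul_one, mul_zero] at h6
  have h9 : ∑ a ∈ Ico 1 d, (J(a | d) : ℝ) * -(π * (a / d - 1 / 2)) =
      -(π / d) * ∑ a ∈ Ico 1 d, (a : ℝ) * J(a | d) + π / 2 * ∑ a ∈ Ico 1 d, (J(a | d) : ℝ) := by
    rw [mul_sum, mul_sum, ← sum_add_distrib]
    exact sum_congr rfl fun a _ => by ring
  rw [h9, g0, mul_zero, add_zero] at h6
  have h10 : ∑ a ∈ Ico 1 d, (a : ℝ) * J(a | d) ≤ 0 := by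
    by_contra h
    have := mul_pos (div_pos pi_pos hd0) (not_le.1 h)
    linarith
  rw [range_eq_Ico, sum_eq_sum_Ico_succ_bot (by omega : 0 < d)]
  simp only [Nat.cast_zero, zero_mul, zero_add]
  exact_mod_cast h10

lemma J_sub {p : ℕ} (h4 : p % 4 = 3) (a : ℤ) : J(p - a | p) = -J(a | p) := by
  rw [jacobiSym.mod_left, sub_eq_neg_add, Int.add_emod_right, ← jacobiSym.mod_left,
    jacobiSym.neg _ (Nat.odd_iff.2 (by omega)), ZMod.χ₄_nat_three_mod_four h4, neg_one_mul]

theorem half_nonneg {p : ℕ} (h4 : p % 4 = 3) (hs : Squarefree p) :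
    0 ≤ ∑ k ∈ range (p / 2), J((k + 1 : ℕ) | p) := by
  have h1 := sum_nonpos h4 hs
  obtain ⟨n, hn⟩ : ∃ n, p / 2 = n := ⟨_, rfl⟩
  have hp : p = 2 * n + 1 := by omega
  have l1 := J_sub h4
  have e1 : ∑ a ∈ range p, a * J(a | p) = ∑ k ∈ range n,
      (2 * ((k + 1) * J(k + 1 | p)) - p * J(k + 1 | p)) := by
    rw [congrArg range hp, half_sum, Nat.cast_zero, zero_mul, zero_add]
    refine sum_congr rfl fun k hk => ?_
    have := mem_range.1 hk
    rw [show ((2 * n - k : ℕ) : ℤ) = p - (k + 1) by omega, l1]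
    push_cast; ring
  have e2 : ∑ a ∈ range p, a * J(a | p) = J(2 | p) * ∑ k ∈ range n,
      (4 * ((k + 1) * J(k + 1 | p)) - p * J(k + 1 | p)) := by
    have sp : ∀ (f : ℕ → ℤ) n, ∑ a ∈ range (2 * n + 1), f a =
        f 0 + (∑ k ∈ range n, f (2 * k + 2) + ∑ k ∈ range n, f (2 * k + 1)) := fun f n => by
      induction n with
      | zero => simp
      | succ n ih => rw [mul_add, mul_one, sum_range_succ, sum_range_succ, ih, sum_range_succ,
          sum_range_succ]; ring
    rw [congrArg range hp, sp, Nat.cast_zero, zero_mul, zero_add, mul_sum,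
      ← sum_range_reflect (fun k => ((2 * k + 1 : ℕ) : ℤ) * _), ← sum_add_distrib]
    refine sum_congr rfl fun k hk => ?_
    have := mem_range.1 hk
    rw [show ((2 * (n - 1 - k) + 1 : ℕ) : ℤ) = p - 2 * (k + 1) by omega, l1,
      show ((2 * k + 2 : ℕ) : ℤ) = 2 * (k + 1) by omega, jacobiSym.mul_left]
    ring
  have h5 : J(2 | p) = 1 ∨ J(2 | p) = -1 := jacobiSym.eq_one_or_neg_one (by
    rw [hp]; simp [Int.gcd])
  simp only [sum_sub_distrib, ← mul_sum] at e1 e2
  rw [hn]
  push_cast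
  have hp0 : (0 : ℤ) < p := by omega
  by_contra hc
  have h6 := mul_pos hp0 (neg_pos.2 (not_le.1 hc))
  rcases h5 with h5 | h5 <;> rw [h5] at e2 <;> linarith

end Pool.Agent.H.MP_54f1ce_nt
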