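import Pool.Agent.H.MP_54f1ce_nt.A

set_option autoImplicit false
open Finset
open scoped NumberTheorySymbols

namespace Pool.Agent.H.MP_54f1ce_nt
open Pool.Agent.Lib.helper20.Quad

lemma full_zero {d : ℕ} (h4 : d % 4 = 3) : ∑ a ∈ range d, J((a : ℕ) | d) = 0 := by
  obtain ⟨n, hn⟩ : ∃ n, d = 2 * n + 1 := ⟨d / 2, by omega⟩
  rw [congrArg range hn, half_sum, Nat.cast_zero, jacobiSym.zero_left (by omega), zero_add]
  refine sum_eq_zero fun k hk => ?_
  have := mem_range.1 hk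
  rw [show ((2 * n - k : ℕ) : ℤ) = d - (k + 1 : ℕ) by omega, J_sub h4]
  ring

lemma period {d : ℕ} (h4 : d % 4 = 3) (j X : ℕ) :
    ∑ a ∈ range (d * j + X), J((a : ℕ) | d) = ∑ a ∈ range X, J((a : ℕ) | d) := by
  induction j with
  | zero => simp
  | succ j ih =>
    rw [show d * (j + 1) + X = d + (d * j + X) by ring, sum_range_add, full_zero h4, zero_add, ← ih]
    refine sum_congr rfl fun a _ => jacobiSym.mod_left' ?_
    push_cast
    simp

lemma sum_dvd {q : ℕ} (hq : 0 < q) (X : ℕ) (f : ℕ → ℤ) :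
    ∑ m ∈ range (X + 1), (if q ∣ m then f m else 0) = ∑ m ∈ range (X / q + 1), f (q * m) := by
  rw [← sum_filter]
  have : filter (q ∣ ·) (range (X + 1)) = image (q * ·) (range (X / q + 1)) := by
    ext m
    simp only [mem_filter, mem_range, mem_image, Nat.lt_succ_iff]
    constructor
    · rintro ⟨h, m, rfl⟩
      exact ⟨m, (Nat.le_div_iff_mul_le hq).2 (by rwa [mul_comm]), rfl⟩
    · rintro ⟨m, h, rfl⟩
      exact ⟨by rw [mul_comm]; exact (Nat.le_div_iff_mul_le hq).1 h, dvd_mul_right _ _⟩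
  rw [this, sum_image fun a _ b _ h => Nat.eq_of_mul_eq_mul_left hq h]

lemma sieve {d : ℕ} (h4 : d % 4 = 3) (S : Finset ℕ) : (∀ q ∈ S, q.Prime) → ∀ N : ℕ, Odd N →
    d * ∏ q ∈ S, q ∣ N →
    ∑ m ∈ range (N / 2 + 1), (if ∀ q ∈ S, ¬ q ∣ m then J((m : ℕ) | d) else 0) =
      (∑ m ∈ range (d / 2 + 1), J((m : ℕ) | d)) * ∏ q ∈ S, (1 - J((q : ℕ) | d)) := by
  induction S using Finset.induction_on with
  | empty =>
    rintro - N hN ⟨u, rfl⟩
    obtain ⟨j, rfl⟩ := (Nat.odd_mul.1 hN).2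
    simp only [notMem_empty, IsEmpty.forall_iff, implies_true, if_true, prod_empty, mul_one]
    rw [show d * (2 * j + 1) / 2 + 1 = d * j + (d / 2 + 1) by
      rw [show d * (2 * j + 1) = d + 2 * (d * j) by ring]; omega, period h4]
  | insert q S hq ih =>
    intro hS N hN hd
    have hqp := hS q (mem_insert_self _ _)
    have hS' : ∀ r ∈ S, r.Prime := fun r hr => hS r (mem_insert_of_mem hr)
    rw [prod_insert hq] at hd
    obtain ⟨u, rfl⟩ := hd
    have h1 := ih hS' _ hN ⟨q * u, by ring⟩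
    have h2 := ih hS' (d * (∏ q ∈ S, q) * u) (by
      rw [show d * (q * ∏ q ∈ S, q) * u = q * (d * (∏ q ∈ S, q) * u) by ring] at hN
      exact (Nat.odd_mul.1 hN).2) (dvd_mul_right _ _)
    have h3 := sum_dvd hqp.pos (d * (q * ∏ q ∈ S, q) * u / 2)
      (fun m => if ∀ q ∈ S, ¬ q ∣ m then J((m : ℕ) | d) else 0)
    rw [Nat.div_div_eq_div_mul, mul_comm 2 q, ← Nat.div_div_eq_div_mul,
      show d * (q * ∏ q ∈ S, q) * u = q * (d * (∏ q ∈ S, q) * u) by ring,
      Nat.mul_div_cancel_left _ hqp.pos] at h3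
    rw [show d * (q * ∏ q ∈ S, q) * u = q * (d * (∏ q ∈ S, q) * u) by ring] at h1 ⊢
    have h5 : ∀ m : ℕ, (if ∀ r ∈ S, ¬ r ∣ q * m then J(((q * m : ℕ) : ℤ) | d) else 0) =
        J((q : ℕ) | d) * (if ∀ r ∈ S, ¬ r ∣ m then J((m : ℕ) | d) else 0) := by
      intro m
      have : (∀ r ∈ S, ¬ r ∣ q * m) ↔ ∀ r ∈ S, ¬ r ∣ m := by
        refine forall₂_congr fun r hr => not_congr ?_
        rw [(hS' r hr).dvd_mul, Nat.prime_dvd_prime_iff_eq (hS' r hr) hqp]
        exact or_iff_right (by rintro rfl; exact hq hr)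
      simp only [this]
      push_cast
      rw [jacobiSym.mul_left]
      split_ifs <;> simp
    simp only [h5, ← mul_sum] at h3
    rw [h2] at h3
    rw [prod_insert hq]
    have h6 : ∀ m : ℕ, (if ∀ r ∈ insert q S, ¬ r ∣ m then J((m : ℕ) | d) else 0) =
        (if ∀ r ∈ S, ¬ r ∣ m then J((m : ℕ) | d) else 0) -
        (if q ∣ m then (if ∀ r ∈ S, ¬ r ∣ m then J((m : ℕ) | d) else 0) else 0) := by
      intro m
      simp only [forall_mem_insert]
      by_cases h : q ∣ m <;> simp [h]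
    simp only [h6, sum_sub_distrib]
    rw [h1, h3]
    ring

theorem half_nonneg' {p : ℕ} (h4 : p % 4 = 3) :
    0 ≤ ∑ m ∈ range (p / 2 + 1), J((m : ℕ) | p) := by
  obtain ⟨d, t, e, hs⟩ := Nat.sq_mul_squarefree p
  have hp : Odd p := Nat.odd_iff.2 (by omega)
  have ht : Odd t := by
    rw [← e] at hp
    exact (Nat.odd_pow_iff two_ne_zero).1 (Nat.odd_mul.1 hp).1
  have hd : d % 4 = 3 := by
    obtain ⟨j, rfl⟩ := ht
    rw [← e, show (2 * j + 1) ^ 2 * d = d + 4 * ((j * j + j) * d) by ring] at h4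
    omega
  have h1 := sieve hd t.primeFactors (fun q hq => Nat.prime_of_mem_primeFactors hq) p hp (by
    rw [← e, mul_comm (t ^ 2)]
    exact mul_dvd_mul_left _ ((Nat.prod_primeFactors_dvd t).trans (dvd_pow_self _ two_ne_zero)))
  have h2 : ∀ m : ℕ, J((m : ℕ) | p) =
      if ∀ q ∈ t.primeFactors, ¬ q ∣ m then J((m : ℕ) | d) else 0 := by
    intro m
    rw [← e, jacobiSym.mul_right' _ (pow_ne_zero _ ht.pos.ne') (by omega), jacobiSym.pow_right]
    have : NeZero t := ⟨ht.pos.ne'⟩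
    split_ifs with h
    · rw [jacobiSym.sq_one, one_mul]
      rw [Int.gcd_natCast_natCast]
      refine Nat.coprime_of_dvd fun q hq h1 h2 => h q ?_ h1
      exact Nat.mem_primeFactors.2 ⟨hq, h2, ht.pos.ne'⟩
    · push Not at h
      obtain ⟨q, hq, h1⟩ := h
      rw [jacobiSym.eq_zero_iff_not_coprime.2, zero_pow two_ne_zero, zero_mul]
      rw [Int.gcd_natCast_natCast]
      intro hc
      have := Nat.dvd_gcd h1 (Nat.dvd_of_mem_primeFactors hq)
      rw [hc] at this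
      exact (Nat.prime_of_mem_primeFactors hq).one_lt.ne' (Nat.dvd_one.1 this)
  simp only [h2]
  rw [h1]
  refine mul_nonneg ?_ (prod_nonneg fun q _ => ?_)
  · rw [sum_range_succ', Nat.cast_zero, jacobiSym.zero_left (by omega), add_zero]
    exact half_nonneg hd hs
  · rcases jacobiSym.trichotomy q d with h | h | h <;> simp [h]

lemma exists_nonres {p : ℕ} (h3 : 3 < p) (h4 : p % 4 = 3) :
    ∃ m : ℕ, 0 < m ∧ 2 * m < p ∧ J((m : ℕ) | p) = -1 := by
  by_contra hc
  push Not at hc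
  have hp : Odd p := Nat.odd_iff.2 (by omega)
  have hc2 : Nat.Coprime 2 p := by simpa using hp
  have h2 : J(2 | p) = 1 := by
    have := hc 2 (by norm_num) (by omega)
    rcases jacobiSym.eq_one_or_neg_one (a := 2) (b := p) (by simpa [Int.gcd] using hc2) with h | h
    · exact h
    · exact absurd h this
  obtain ⟨k, hk1, hk2⟩ : ∃ k, 2 ^ k ≤ p ∧ p < 2 ^ (k + 1) :=
    ⟨Nat.log 2 p, Nat.pow_log_le_self 2 (by omega), Nat.lt_pow_succ_log_self one_lt_two p⟩
  have h5 : 2 ^ k ≠ p := by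
    rintro rfl
    rcases k with _ | k
    · omega
    · rw [pow_succ] at h4; omega
  rw [pow_succ] at hk2
  refine hc (p - 2 ^ k) (by omega) (by omega) ?_
  rw [Nat.cast_sub hk1, J_sub h4]
  push_cast
  rw [jacobiSym.pow_left, h2, one_pow]

/-- The value `c₁ + 1/(c₂ + 1/(⋯ + 1/c_λ))` of the finite simple continued fraction with partial
quotients `[c₁, …, c_λ]` (only nonempty lists are used). -/
def cfVal : List ℕ → ℚ
  | [] => 0
  | [c] => c
  | c :: d :: t => c + 1 / cfVal (d :: t)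

/-- `c = [c₁, …, c_λ]` is the simple continued fraction expansion of `x`: positive integer partial
quotients, last one `> 1`, value `x`. -/
def IsCF (x : ℚ) (c : List ℕ) : Prop :=
  ∃ h : c ≠ [], (∀ a ∈ c, 0 < a) ∧ 1 < c.getLast h ∧ cfVal c = x

lemma cf_mat : ∀ (c : List ℕ) (x : ℚ), IsCF x c → ∃ P Q R S : ℕ, 0 < Q ∧ 0 < R ∧ x = P / Q ∧
    (P * S - Q * R : ℤ) = (-1) ^ c.length ∧ 2 * R ≤ P ∧ 2 * S ≤ Q
  | [], _, h => absurd rfl h.1
  | [c], x, ⟨_, _, h2, h3⟩ => ⟨c, 1, 1, 0, one_pos, one_pos, by simpa [cfVal] using h3.symm,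
      by simp, by simp at h2; omega, by simp⟩
  | c :: d :: t, x, ⟨_, h1, h2, h3⟩ => by
    obtain ⟨P, Q, R, S, a1, a2, a3, a4, a5, a6⟩ := cf_mat (d :: t) _
      ⟨by simp, fun a ha => h1 a (List.mem_cons_of_mem _ ha), by simpa using h2, rfl⟩
    have hc := h1 c (by simp)
    refine ⟨c * P + Q, P, c * R + S, R, by omega, by positivity, ?_, ?_, by nlinarith, a5⟩
    · have : (P : ℚ) ≠ 0 := by exact_mod_cast (by omega : P ≠ 0)
      rw [← h3, cfVal, a3]
      push_cast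
      field_simp
    · rw [List.length_cons, pow_succ, ← a4]
      push_cast
      ring

lemma cf_exists (n : ℕ) : ∀ p : ℕ, 0 < n → n < p → ∃ c, IsCF ((p : ℚ) / n) c := by
  induction n using Nat.strong_induction_on with
  | _ n ih =>
  intro p h0 h1
  have hn : (n : ℚ) ≠ 0 := by exact_mod_cast h0.ne'
  have e : (p : ℚ) = n * (p / n : ℕ) + (p % n : ℕ) := by exact_mod_cast (Nat.div_add_mod p n).symm
  have h2 : 0 < p / n := Nat.div_pos h1.le h0
  by_cases h : p % n = 0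
  · refine ⟨[p / n], by simp, by simpa using h2, ?_, ?_⟩
    · have := Nat.div_add_mod p n
      simp only [List.getLast_singleton]
      by_contra hc
      have : p / n = 1 := by omega
      simp_all
    · rw [cfVal, e, h]; field_simp; simp
  · obtain ⟨c, hc, a1, a2, a3⟩ := ih (p % n) (Nat.mod_lt _ h0) n (by omega) (Nat.mod_lt _ h0)
    obtain ⟨d, t, rfl⟩ := List.exists_cons_of_ne_nil hc
    refine ⟨(p / n) :: d :: t, by simp, ?_, by simpa using a2, ?_⟩
    · intro a ha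
      rcases List.mem_cons.1 ha with rfl | ha
      exacts [h2, a1 a ha]
    · rw [cfVal, a3, e]
      field_simp

lemma cf_par {p n : ℕ} (h0 : 0 < n) (h3 : 3 < p) (h4 : p % 4 = 3) (hc : Nat.Coprime n p)
    {c : List ℕ} (h : IsCF ((p : ℚ) / n) c) :
    ∃ R : ℕ, 0 < R ∧ 2 * R < p ∧ (n : ZMod p) * R = (-1) ^ (c.length + 1) := by
  obtain ⟨P, Q, R, S, a1, a2, a3, a4, a5, -⟩ := cf_mat c _ h
  have h5 : Nat.Coprime P Q := by
    rw [← Nat.isCoprime_iff_coprime]
    refine ⟨(-1) ^ c.length * S, -(-1) ^ c.length * R, ?_⟩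
    have : ((-1 : ℤ) ^ c.length) ^ 2 = 1 := by rw [← pow_mul, mul_comm, pow_mul]; simp
    linear_combination (-1) ^ c.length * a4 + this
  have h6 : p * Q = P * n := by
    rw [div_eq_div_iff (by exact_mod_cast h0.ne') (by exact_mod_cast a1.ne')] at a3
    exact_mod_cast a3
  have h7 : P = p := Nat.dvd_antisymm (h5.dvd_of_dvd_mul_right ⟨n, h6⟩)
    (hc.symm.dvd_of_dvd_mul_right ⟨Q, h6.symm⟩)
  subst h7
  have h8 : Q = n := Nat.eq_of_mul_eq_mul_left (by omega) h6
  subst h8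
  refine ⟨R, a2, by omega, ?_⟩
  have := congrArg (Int.cast : ℤ → ZMod P) a4
  push_cast at this
  rw [ZMod.natCast_self] at this
  linear_combination -this

/-- the sign function on residues -/
def sg (p u : ℕ) : ℤ := if 2 * u < p then J((u : ℕ) | p) else -J((u : ℕ) | p)

def iv (p n : ℕ) : ℕ := ((n : ZMod p)⁻¹).val

lemma J_congr {p : ℕ} {a b : ℤ} (h : (a : ZMod p) = b) : J(a | p) = J(b | p) :=
  jacobiSym.mod_left' ((ZMod.intCast_eq_intCast_iff' a b p).1 h)

lemma iv_spec {p n : ℕ} (h3 : 3 < p) (hc : Nat.Coprime n p) :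
    0 < iv p n ∧ iv p n < p ∧ Nat.Coprime (iv p n) p ∧ (n : ZMod p) * iv p n = 1 ∧
      (n < p → iv p (iv p n) = n) := by
  have : NeZero p := ⟨by omega⟩
  have : Fact (1 < p) := ⟨by omega⟩
  have h1 : (n : ZMod p) * iv p n = 1 := by
    rw [iv, ZMod.natCast_zmod_val, ZMod.coe_mul_inv_eq_one n hc]
  refine ⟨Nat.pos_of_ne_zero fun h => ?_, ZMod.val_lt _, ?_, h1, fun h => ?_⟩
  · rw [h] at h1; simp at h1
  · rw [← ZMod.isUnit_iff_coprime]
    exact IsUnit.of_mul_eq_one_right _ h1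
  · rw [iv, ZMod.inv_eq_of_mul_eq_one p _ _ (by rw [mul_comm]; exact h1), ZMod.val_natCast,
      Nat.mod_eq_of_lt h]

lemma key {p n : ℕ} (h0 : 0 < n) (h3 : 3 < p) (h4 : p % 4 = 3) (hc : Nat.Coprime n p)
    {c : List ℕ} (h : IsCF ((p : ℚ) / n) c) :
    J((n : ℕ) | p) * sg p (iv p n) = (-1) ^ (c.length + 1) := by
  obtain ⟨R, a1, a2, a3⟩ := cf_par h0 h3 h4 hc h
  obtain ⟨b1, b2, -, b3, -⟩ := iv_spec h3 hc
  have b4 : J((n : ℕ) | p) * J((iv p n : ℕ) | p) = 1 := by
    rw [← jacobiSym.mul_left, ← jacobiSym.one_left p]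
    exact J_congr (by push_cast; exact b3)
  rcases neg_one_pow_eq_or ℤ (c.length + 1) with h5 | h5
  · have h6 : ((-1 : ZMod p)) ^ (c.length + 1) = 1 := by exact_mod_cast congrArg (Int.cast : ℤ → ZMod p) h5
    have h7 : ((iv p n : ℕ) : ZMod p) = R := by
      rw [h6] at a3
      linear_combination (R : ZMod p) * b3 - (iv p n : ZMod p) * a3
    have h8 := ((ZMod.natCast_eq_natCast_iff _ _ _).1 h7).eq_of_lt_of_lt b2 (by omega)
    rw [h5, sg, if_pos (by omega), b4]
  · have h6 : ((-1 : ZMod p)) ^ (c.length + 1) = -1 := by exact_mod_cast congrArg (Int.cast : ℤ → ZMod p) h5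
    have h7 : ((iv p n : ℕ) : ZMod p) = (p - R : ℕ) := by
      rw [h6] at a3
      rw [Nat.cast_sub (by omega), ZMod.natCast_self]
      linear_combination -(R : ZMod p) * b3 + (iv p n : ZMod p) * a3
    have h8 := ((ZMod.natCast_eq_natCast_iff _ _ _).1 h7).eq_of_lt_of_lt b2 (by omega)
    rw [h5, sg, if_neg (by omega), mul_neg, b4]

lemma card_eq {p : ℕ} (h3 : 3 < p) (h4 : p % 4 = 3) (j : ℕ) :
    {n : ℕ | 0 < n ∧ n < p ∧ ∃ c, IsCF ((p : ℚ) / n) c ∧
      J((n : ℕ) | p) = (-1) ^ (c.length + j)}.ncard =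
    ((range p).filter fun u => sg p u = (-1) ^ (j + 1)).card := by
  have : NeZero p := ⟨by omega⟩
  have hu : ∀ k : ℕ, ((-1 : ℤ) ^ k) ≠ 0 := fun k => pow_ne_zero _ (by norm_num)
  have hs : ∀ k : ℕ, ((-1 : ℤ) ^ k) * (-1) ^ k = 1 := fun k => by rw [← mul_pow]; simp
  have cop : ∀ n : ℕ, J((n : ℕ) | p) ≠ 0 → Nat.Coprime n p := fun n h => by
    by_contra hc
    exact h (jacobiSym.eq_zero_iff_not_coprime.2 (by rwa [Int.gcd_natCast_natCast]))
  have cop2 : ∀ u, sg p u = (-1) ^ (j + 1) → Nat.Coprime u p := fun u h => cop u fun h0 => by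
    refine hu _ (h.symm.trans ?_)
    simp [sg, h0]
  rw [← Set.ncard_coe_finset]
  refine Set.ncard_congr (fun n _ => iv p n) ?_ ?_ ?_
  · rintro n ⟨a1, a2, c, a3, a4⟩
    have hc := cop n (by rw [a4]; exact hu _)
    have := key a1 h3 h4 hc a3
    simp only [coe_filter, mem_range, Set.mem_setOf_eq]
    refine ⟨(iv_spec h3 hc).2.1, ?_⟩
    rw [a4] at this
    refine mul_left_cancel₀ (hu (c.length + j)) (this.trans ?_)
    simp only [pow_add]
    linear_combination (-1) ^ c.length * hs j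
  · rintro n m ⟨-, a2, c, -, a4⟩ ⟨-, b2, c', -, b4⟩ h
    rw [← (iv_spec h3 (cop n (by rw [a4]; exact hu _))).2.2.2.2 a2, h,
      (iv_spec h3 (cop m (by rw [b4]; exact hu _))).2.2.2.2 b2]
  · intro u hu'
    simp only [coe_filter, mem_range, Set.mem_setOf_eq] at hu'
    obtain ⟨b1, b2, b3, -, b5⟩ := iv_spec h3 (cop2 u hu'.2)
    obtain ⟨c, hc⟩ := cf_exists _ p b1 b2
    refine ⟨iv p u, ⟨b1, b2, c, hc, ?_⟩, b5 hu'.1⟩
    have := key b1 h3 h4 b3 hc
    rw [b5 hu'.1, hu'.2] at this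
    refine mul_right_cancel₀ (hu (j + 1)) (this.trans ?_)
    simp only [pow_add]
    linear_combination (-1) ^ c.length * hs j

lemma card_le {p : ℕ} (h4 : p % 4 = 3) :
    ((range p).filter fun u => sg p u = -1).card ≤ ((range p).filter fun u => sg p u = 1).card := by
  have h1 : ∑ u ∈ range p, sg p u = (((range p).filter fun u => sg p u = 1).card : ℤ) -
      ((range p).filter fun u => sg p u = -1).card := by
    simp only [card_filter]
    push_cast
    rw [← sum_sub_distrib]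
    refine sum_congr rfl fun u _ => ?_
    unfold sg
    rcases jacobiSym.trichotomy u p with h | h | h <;> split_ifs <;> simp_all
  have h2 := half_nonneg' h4
  obtain ⟨n, hn⟩ : ∃ n, p / 2 = n := ⟨_, rfl⟩
  have hp : p = 2 * n + 1 := by omega
  rw [hn, sum_range_succ'] at h2
  have h5 : ∑ u ∈ range p, sg p u = 2 * ∑ k ∈ range n, J(((k + 1 : ℕ) : ℤ) | p) := by
    rw [congrArg range hp, half_sum, mul_sum]
    simp only [sg, Nat.cast_zero, jacobiSym.zero_left (by omega : 1 < p), neg_zero, ite_self,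
      zero_add]
    refine sum_congr rfl fun k hk => ?_
    have := mem_range.1 hk
    rw [if_pos (by omega), if_neg (by omega),
      show ((2 * n - k : ℕ) : ℤ) = p - (k + 1 : ℕ) by omega, J_sub h4]
    ring
  simp only [Nat.cast_zero, jacobiSym.zero_left (by omega : 1 < p), add_zero] at h2
  omega

lemma two_le {p : ℕ} (h3 : 3 < p) (h4 : p % 4 = 3) :
    2 ≤ ((range p).filter fun u => sg p u = -1).card := by
  obtain ⟨m, a1, a2, a3⟩ := exists_nonres h3 h4
  refine one_lt_card.2 ⟨m, ?_, p - m, ?_, by omega⟩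
  · exact mem_filter.2 ⟨mem_range.2 (by omega), by rw [sg, if_pos a2, a3]⟩
  · refine mem_filter.2 ⟨mem_range.2 (by omega), ?_⟩
    rw [sg, if_neg (by omega), Nat.cast_sub (by omega), J_sub h4, neg_neg, a3]

end Pool.Agent.H.MP_54f1ce_nt
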